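import Pool.Agent.K3h3.KB.Fin
import Pool.Agent.R663.KRB.Kdim
import Mathlib.GroupTheory.RegularWreathProduct

/-!
# Brauer's `k(B)` conjecture: one omitted interval decides

Let `O` be a valuation ring of `ℂ` whose maximal ideal contains the prime `p`. Blocks are given by their
sets of irreducible characters: `IsBlock O B` (`Pool.Agent.H254R3.IN`) says that `B` is the set of all
irreducible complex characters whose central characters are congruent to a given one modulo the maximal
ideal of `O`, and `HasDefect p B d` (`Pool.Agent.K3h3.KB`) says that `d` is the defect of `B`, so that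
`p ^ d` is the order of the defect groups. `gal σ B` (`Pool.Agent.Q288.MB`) is the block of the Galois
conjugates `σ ∘ χ`, `χ ∈ B`.

Proof. The quotient `k(B) / p ^ d` is multiplicative for direct products of blocks. If the conjecture
fails then there is a block `B` which is stable under all field automorphisms with `k(B) > p ^ d`
(`Pool.Agent.K3h3.KB.exists_violation`). Its powers have arbitrarily large quotients; multiplying with
powers of a fixed block with quotient `s < 1` one comes down by steps of the factor `s`, so one meets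
every interval `(x, x / s]`. For two fixed blocks with quotients `s, t < 1` with `log s / log t` irrational the
numbers `s ^ a t ^ b` have ratios of consecutive values tending to `1`, so the quotients are dense.
A block with quotient `< 1` is the block of the trivial character of a nonabelian `p`-group `P`:
the quotient is at most the number of conjugacy classes of `P` divided by `|P|`.
-/

set_option autoImplicit false

noncomputable section

namespace Pool.Agent.Results.MP_a15589_al.OmittedInterval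

open Pool.Agent.H254R3.IN (IsBlock IsIrr)
open Pool.Agent.K3h3.KB (HasDefect)
open Pool.Agent.Q288.MB (gal)

/-- `B` is a block of defect `d` of `G`, stable under all field automorphisms of `ℂ`. -/
structure Stable (p : ℕ) (O : ValuationSubring ℂ) (G : Type) [Group G] (B : Set (G → ℂ)) (d : ℕ) :
    Prop where
  block : IsBlock O B
  stable : ∀ σ : ℂ ≃+* ℂ, gal σ B = B
  defect : HasDefect p B d

/-- The quotient `k(B) / p ^ d` for a block `B` of defect `d`. -/
def quo (p : ℕ) {G : Type} (B : Set (G → ℂ)) (d : ℕ) : ℝ := (Nat.card B : ℝ) / (p : ℝ) ^ d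

/-- Brauer's `k(B)` conjecture for the prime `p`. -/
def Brauer (p : ℕ) (O : ValuationSubring ℂ) : Prop :=
  ∀ (G : Type) [Group G] [Finite G] (B : Set (G → ℂ)) (d : ℕ), IsBlock O B → HasDefect p B d →
    Nat.card B ≤ p ^ d

/-- gaps of the semigroup generated by two incommensurable positive numbers -/
theorem gaps {α β : ℝ} (hα : 0 < α) (hβ : 0 < β) (hirr : Irrational (α / β)) {ε : ℝ} (hε : 0 < ε) :
    ∃ T : ℝ, ∀ t : ℝ, T ≤ t → ∃ a b : ℕ, t < a * α + b * β ∧ (a : ℝ) * α + b * β < t + ε := by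
  -- the symmetric core
  have core : ∀ {x y : ℝ}, 0 < x → 0 < y → ∀ m n : ℕ, 0 < (m : ℝ) * x - n * y →
      (m : ℝ) * x - n * y < ε → ∃ T : ℝ, ∀ t : ℝ, T ≤ t → ∃ a b : ℕ, t < a * x + b * y ∧
        (a : ℝ) * x + b * y < t + ε := by
    intro x y hx hy m n h1 h2
    set δ := (m : ℝ) * x - n * y with hδ
    obtain ⟨K, hK⟩ := exists_nat_gt (y / δ)
    refine ⟨K * (n * y), fun t ht => ?_⟩
    set b0 := ⌊(t - K * (n * y)) / y⌋₊ with hb0
    have hnn : 0 ≤ (t - K * (n * y)) / y := div_nonneg (by linarith) hy.le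
    have h3 : (b0 : ℝ) * y ≤ t - K * (n * y) := by
      have := Nat.floor_le hnn
      rwa [← hb0, le_div_iff₀ hy] at this
    have h4 : t - K * (n * y) < (b0 + 1) * y := by
      have := Nat.lt_floor_add_one ((t - K * (n * y)) / y)
      rwa [← hb0, div_lt_iff₀ hy] at this
    set ρ := t - K * (n * y) - b0 * y with hρ
    have hρ0 : 0 ≤ ρ := by linarith
    have hρ1 : ρ < y := by linarith
    set j := ⌊ρ / δ⌋₊ with hj
    have h5 : (j : ℝ) * δ ≤ ρ := by
      have := Nat.floor_le (div_nonneg hρ0 h1.le)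
      rwa [← hj, le_div_iff₀ h1] at this
    have h6 : ρ < (j + 1) * δ := by
      have := Nat.lt_floor_add_one (ρ / δ)
      rwa [← hj, div_lt_iff₀ h1] at this
    have h7 : j + 1 ≤ K := by
      have h8 : (j : ℝ) ≤ ρ / δ := Nat.floor_le (div_nonneg hρ0 h1.le)
      have h9 : ρ / δ < y / δ := by gcongr
      have h10 : (j : ℝ) < K := by linarith
      exact_mod_cast h10
    obtain ⟨c, hc⟩ := Nat.exists_eq_add_of_le h7
    refine ⟨(j + 1) * m, c * n + b0, ?_, ?_⟩
    · have e : (((j + 1) * m : ℕ) : ℝ) * x + ((c * n + b0 : ℕ) : ℝ) * y =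
          K * (n * y) + b0 * y + (j + 1) * δ := by
        rw [hc, hδ]
        push_cast
        ring
      rw [e]
      linarith
    · have e : (((j + 1) * m : ℕ) : ℝ) * x + ((c * n + b0 : ℕ) : ℝ) * y =
          K * (n * y) + b0 * y + (j + 1) * δ := by
        rw [hc, hδ]
        push_cast
        ring
      rw [e]
      linarith
  -- a small combination
  have hd : Dense (AddSubgroup.closure {α, β} : Set ℝ) := dense_addSubgroupClosure_pair_iff.2 hirr
  obtain ⟨z, hz, hz1⟩ := hd.exists_mem_open (isOpen_Ioo (a := 0) (b := min ε (min α β)))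
    ⟨min ε (min α β) / 2, by
      have : 0 < min ε (min α β) := by positivity
      constructor <;> linarith⟩
  have hz2 : z ∈ AddSubgroup.closure {α, β} := hz
  rw [AddSubgroup.mem_closure_pair] at hz2
  obtain ⟨m, n, hmn⟩ := hz2
  rw [zsmul_eq_mul, zsmul_eq_mul] at hmn
  have hz3 : 0 < z := hz1.1
  have hzε : z < ε := lt_of_lt_of_le hz1.2 (min_le_left _ _)
  have hzα : z < α := lt_of_lt_of_le hz1.2 ((min_le_right _ _).trans (min_le_left _ _))
  have hzβ : z < β := lt_of_lt_of_le hz1.2 ((min_le_right _ _).trans (min_le_right _ _))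
  rcases le_or_gt m 0 with hm | hm
  · rcases le_or_gt n 0 with hn | hn
    · exfalso
      have h1 : (m : ℝ) ≤ 0 := by exact_mod_cast hm
      have h2 : (n : ℝ) ≤ 0 := by exact_mod_cast hn
      nlinarith
    · obtain ⟨m', hm'⟩ := Int.exists_eq_neg_ofNat hm
      obtain ⟨n', hn'⟩ := Int.eq_ofNat_of_zero_le hn.le
      subst hm' hn'
      push_cast at hmn
      obtain ⟨T, hT⟩ := core hβ hα n' m' (by linarith) (by linarith)
      refine ⟨T, fun t ht => ?_⟩
      obtain ⟨a, b, h1, h2⟩ := hT t ht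
      exact ⟨b, a, by linarith, by linarith⟩
  · rcases le_or_gt n 0 with hn | hn
    · obtain ⟨n', hn'⟩ := Int.exists_eq_neg_ofNat hn
      obtain ⟨m', hm'⟩ := Int.eq_ofNat_of_zero_le hm.le
      subst hm' hn'
      push_cast at hmn
      exact core hα hβ m' n' (by linarith) (by linarith)
    · exfalso
      have h1 : (1 : ℝ) ≤ m := by exact_mod_cast hm
      have h2 : (1 : ℝ) ≤ n := by exact_mod_cast hn
      nlinarith

/-- density of the products -/
theorem dense_prod {r s t : ℝ} (hr : 1 < r) (hs0 : 0 < s) (hs : s < 1) (ht0 : 0 < t) (ht : t < 1)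
    (hirr : Irrational (Real.log s / Real.log t)) {u v : ℝ} (hu : 0 < u) (huv : u < v) :
    ∃ n a b : ℕ, u < r ^ n * s ^ a * t ^ b ∧ r ^ n * s ^ a * t ^ b < v := by
  have hα : 0 < - Real.log s := by have := Real.log_neg hs0 hs; linarith
  have hβ : 0 < - Real.log t := by have := Real.log_neg ht0 ht; linarith
  have hL : 0 < Real.log r := Real.log_pos hr
  have hv : 0 < v := hu.trans huv
  have hlog : Real.log u < Real.log v := Real.log_lt_log hu huv
  obtain ⟨T, hT⟩ := gaps hα hβ (by rwa [neg_div_neg_eq]) (ε := Real.log v - Real.log u) (by linarith)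
  obtain ⟨n, hn⟩ := exists_nat_gt ((T + Real.log v) / Real.log r)
  rw [div_lt_iff₀ hL] at hn
  obtain ⟨a, b, h1, h2⟩ := hT (n * Real.log r - Real.log v) (by linarith)
  have hpos : 0 < r ^ n * s ^ a * t ^ b := by positivity
  have hl : Real.log (r ^ n * s ^ a * t ^ b) =
      n * Real.log r + a * Real.log s + b * Real.log t := by
    rw [Real.log_mul (by positivity) (by positivity), Real.log_mul (by positivity) (by positivity),
      Real.log_pow, Real.log_pow, Real.log_pow]
  refine ⟨n, a, b, ?_, ?_⟩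
  · rw [← Real.log_lt_log_iff hu hpos, hl]
    nlinarith
  · rw [← Real.log_lt_log_iff hpos hv, hl]
    nlinarith

/-- one reference number -/
theorem steps {r s : ℝ} (hr : 1 < r) (hs0 : 0 < s) (hs : s < 1) {x : ℝ} (hx : 0 < x) :
    ∃ n a : ℕ, x < r ^ n * s ^ a ∧ r ^ n * s ^ a ≤ x * (1 / s) := by
  obtain ⟨n, hn⟩ := pow_unbounded_of_one_lt x hr
  have hrn : 0 < r ^ n := by positivity
  have hex : ∃ m : ℕ, r ^ n * s ^ m ≤ x := by
    obtain ⟨m, hm⟩ := exists_pow_lt_of_lt_one (show 0 < x / r ^ n by positivity) hs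
    refine ⟨m, ?_⟩
    rw [lt_div_iff₀ hrn] at hm
    linarith
  classical
  have h1 := Nat.find_spec hex
  have h0 : Nat.find hex ≠ 0 := by
    intro h
    rw [h, pow_zero, mul_one] at h1
    linarith
  obtain ⟨m, hm⟩ := Nat.exists_eq_succ_of_ne_zero h0
  have h2 := Nat.find_min hex (m := m) (by omega)
  push Not at h2
  refine ⟨n, m, h2, ?_⟩
  rw [hm, Nat.succ_eq_add_one, pow_succ, ← mul_assoc] at h1
  rw [mul_one_div, le_div_iff₀ hs0]
  exact h1

section bridge

open Pool.Agent.K3h3.KB

variable {p : ℕ} [hp : Fact p.Prime] {O : ValuationSubring ℂ}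

theorem power {X : Type} [Group X] [Finite X] {B : Set (X → ℂ)} {d : ℕ} (h : Stable p O X B d)
    (t : ℕ) : ∃ B' : Set ((Fin t → X) → ℂ), Stable p O (Fin t → X) B' (t * d) ∧
      Nat.card B' = Nat.card B ^ t := by
  have := Fintype.ofFinite X
  refine ⟨btS fun _ => B, ⟨btS_block fun _ => h.block, fun σ => ?_, ?_⟩, ?_⟩
  · rw [gal_btS]
    simp only [h.stable]
  · have h1 := btS_defect (I := Fin t) (fun _ => h.block.irr) (fun _ => h.defect)
    simpa using h1
  · rw [card_btS fun _ => h.block.irr]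
    simp

theorem times {X Y : Type} [Group X] [Finite X] [Group Y] [Finite Y] {B : Set (X → ℂ)}
    {C : Set (Y → ℂ)} {d e : ℕ} (h : Stable p O X B d) (h' : Stable p O Y C e) :
    ∃ D : Set (X × Y → ℂ), Stable p O (X × Y) D (d + e) ∧
      Nat.card D = Nat.card B * Nat.card C := by
  have := Fintype.ofFinite X
  have := Fintype.ofFinite Y
  refine ⟨tenS B C, ⟨tenS_block h.block h'.block, fun σ => ?_,
    tenS_defect h.block.irr h'.block.irr h.defect h'.defect⟩,
    card_tenS h.block.irr h'.block.irr⟩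
  rw [gal_tenS, h.stable, h'.stable]

/-- products of powers of three blocks -/
theorem comb {X Y Z : Type} [Group X] [Finite X] [Group Y] [Finite Y] [Group Z] [Finite Z]
    {B : Set (X → ℂ)} {C : Set (Y → ℂ)} {E : Set (Z → ℂ)} {d e f : ℕ} (h1 : Stable p O X B d)
    (h2 : Stable p O Y C e) (h3 : Stable p O Z E f) (n a b : ℕ) :
    ∃ (W : Type) (_ : Group W) (_ : Finite W) (F : Set (W → ℂ)) (g : ℕ), Stable p O W F g ∧
      quo p F g = quo p B d ^ n * quo p C e ^ a * quo p E f ^ b := by
  obtain ⟨B', i1, j1⟩ := power h1 n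
  obtain ⟨C', i2, j2⟩ := power h2 a
  obtain ⟨E', i3, j3⟩ := power h3 b
  obtain ⟨D, i4, j4⟩ := times i1 i2
  obtain ⟨F, i5, j5⟩ := times i4 i3
  refine ⟨_, inferInstance, inferInstance, F, _, i5, ?_⟩
  unfold quo
  rw [j5, j4, j1, j2, j3]
  push_cast
  rw [div_pow, div_pow, div_pow, ← pow_mul, ← pow_mul, ← pow_mul, div_mul_div_comm,
    div_mul_div_comm, ← pow_add, ← pow_add, mul_comm d n, mul_comm e a, mul_comm f b]

/-- a violation of the inequality -/
theorem violation (hpO : (p : ℂ) ∈ O.nonunits) (h : ¬ Brauer p O) :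
    ∃ (X : Type) (_ : Group X) (_ : Finite X) (B : Set (X → ℂ)) (d : ℕ), Stable p O X B d ∧
      1 < quo p B d := by
  unfold Brauer at h
  push Not at h
  obtain ⟨G, _, _, B, d, hB, hd, hv⟩ := h
  obtain ⟨X, iX, fX, B', d', -, -, h1, h2, h3, h4⟩ :=
    exists_violation hpO (Multiplicative (ZMod 2)) hB hd hv
  refine ⟨X, iX, fX, B', d', ⟨h1, h2, h3⟩, ?_⟩
  unfold quo
  have hp0 : (0 : ℝ) < (p : ℝ) ^ d' := by
    have : (0 : ℝ) < p := by exact_mod_cast hp.out.pos
    positivity
  rw [one_lt_div hp0]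
  exact_mod_cast h4

theorem quo_pos {X : Type} [Group X] [Finite X] {B : Set (X → ℂ)} {d : ℕ}
    (h : Stable p O X B d) : 0 < quo p B d := by
  have := Fintype.ofFinite X
  have hp0 : (0 : ℝ) < (p : ℝ) ^ d := by
    have : (0 : ℝ) < p := by exact_mod_cast hp.out.pos
    positivity
  have h1 : 0 < Nat.card B := by
    rw [card_eq_fs h.block.irr, Finset.card_pos]
    obtain ⟨χ, hχ⟩ := h.block.nonempty
    exact ⟨χ, (mem_fs h.block.irr).mpr hχ⟩
  unfold quo
  have h2 : (0 : ℝ) < Nat.card B := by exact_mod_cast h1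
  positivity

theorem no_large (h : Brauer p O) {X : Type} [Group X] [Finite X] {B : Set (X → ℂ)} {d : ℕ}
    (hB : Stable p O X B d) : quo p B d ≤ 1 := by
  have h1 := h X B d hB.block hB.defect
  have hp0 : (0 : ℝ) < (p : ℝ) ^ d := by
    have : (0 : ℝ) < p := by exact_mod_cast hp.out.pos
    positivity
  unfold quo
  rw [div_le_one hp0]
  exact_mod_cast h1

end bridge

section exist

open Pool.Agent.K3h3.KB Pool.Agent.Helper884

variable {p : ℕ} [hp : Fact p.Prime] {O : ValuationSubring ℂ}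

/-- the number of classes of a nonabelian group -/
theorem card_classes_lt {G : Type} [Group G] [Fintype G] {a b : G} (hab : a * b ≠ b * a) :
    (IC.Irr G).card < Nat.card G := by
  classical
  have := Fintype.ofFinite (ConjClasses G)
  have h : (IC.Irr G).card = Nat.card (ConjClasses G) := by
    have h := Pool.Agent.R663.KRB.card_irr_eq (J := G)
    rw [Nat.card_eq_fintype_card, ← Fintype.card_coe (IC.Irr G)]
    exact (by convert h.symm)
  rw [h, Nat.card_eq_fintype_card, Nat.card_eq_fintype_card]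
  refine Fintype.card_lt_of_surjective_not_injective (ConjClasses.mk : G → ConjClasses G)
    ConjClasses.mk_surjective fun hinj => hab ?_
  have h2 : (ConjClasses.mk a : ConjClasses G) = ConjClasses.mk (b * a * b⁻¹) :=
    ConjClasses.mk_eq_mk_iff_isConj.mpr (isConj_iff.mpr ⟨b, rfl⟩)
  have h3 := hinj h2
  calc a * b = (b * a * b⁻¹) * b := by rw [← h3]
    _ = b * a := by group

/-- the block of the trivial character of a nonabelian `p`-group -/
theorem pgroup_block {G : Type} [Group G] [Finite G] {n : ℕ} (hG : Nat.card G = p ^ n) {a b : G}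
    (hab : a * b ≠ b * a) : ∃ B : Set (G → ℂ), Stable p O G B n ∧ quo p B n < 1 := by
  have := Fintype.ofFinite G
  have h1 : IsIrr (fun _ : G => (1 : ℂ)) := by
    have := lin_irr (1 : G →* ℂˣ)
    simpa using this
  have hb : IsBlock O (blk O fun _ : G => (1 : ℂ)) := blk_block h1
  have hm : (fun _ : G => (1 : ℂ)) ∈ blk O (fun _ : G => (1 : ℂ)) := mem_blk_self h1
  refine ⟨blk O fun _ => 1, ⟨hb, fun σ => ?_, ?_⟩, ?_⟩
  · refine block_eq_of_mem (Pool.Agent.Q288.MB.gal_block σ hb) hb (χ := fun _ => (1 : ℂ)) ?_ hm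
    exact ⟨_, hm, funext fun g => (map_one σ).symm⟩
  · rw [hasDefect_iff hb.irr]
    have h2 : (Nat.card G).factorization p = n := by
      rw [hG, hp.out.factorization_pow]
      simp
    refine ⟨fun χ _ => by rw [h2]; omega, _, hm, ?_⟩
    have h3 : ndeg (fun _ : G => (1 : ℂ)) = 1 := ndeg_eq (by simp)
    rw [h2]
    unfold vd
    rw [h3]
    simp
  · have h2 : Nat.card (blk O fun _ : G => (1 : ℂ)) < p ^ n := by
      rw [← hG, card_eq_fs hb.irr]
      exact lt_of_le_of_lt (Finset.card_le_card fun χ hχ => Pool.Agent.H254R3.IN.mem_Irr.mpr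
        (hb.irr _ ((mem_fs hb.irr).mp hχ))) (card_classes_lt hab)
    have hp0 : (0 : ℝ) < (p : ℝ) ^ n := by
      have : (0 : ℝ) < p := by exact_mod_cast hp.out.pos
      positivity
    unfold quo
    rw [div_lt_one hp0]
    exact_mod_cast h2

/-- a nonabelian `p`-group for every `p` -/
theorem exists_nonab (p : ℕ) [hp : Fact p.Prime] : ∃ (G : Type) (_ : Group G) (_ : Finite G) (n : ℕ)
    (a b : G), Nat.card G = p ^ n ∧ a * b ≠ b * a := by
  have : NeZero p := ⟨hp.out.ne_zero⟩
  let C := Multiplicative (ZMod p)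
  let z : C := Multiplicative.ofAdd 1
  have hz : z ≠ 1 := by
    intro h
    have h1 : (1 : ZMod p) = 0 := h
    exact one_ne_zero h1
  classical
  let a : RegularWreathProduct C C := ⟨fun x => if x = 1 then z else 1, 1⟩
  let b : RegularWreathProduct C C := ⟨1, z⟩
  refine ⟨RegularWreathProduct C C, inferInstance, inferInstance, p + 1, a, b, ?_, ?_⟩
  · rw [RegularWreathProduct.card]
    have : Nat.card C = p := Nat.card_zmod p
    rw [this, pow_succ]
  · intro h
    have h1 := congrFun (congrArg RegularWreathProduct.left h) 1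
    rw [RegularWreathProduct.mul_left, RegularWreathProduct.mul_left] at h1
    simp only [a, b, Pi.mul_apply, Pi.one_apply, if_true, mul_one, one_mul] at h1
    rw [if_neg (by simpa using hz)] at h1
    exact hz h1

end exist

theorem exists_ref (p : ℕ) [Fact p.Prime] (O : ValuationSubring ℂ) :
    ∃ (G₀ : Type) (_ : Group G₀) (_ : Finite G₀) (B₀ : Set (G₀ → ℂ)) (d₀ : ℕ),
      Stable p O G₀ B₀ d₀ ∧ quo p B₀ d₀ < 1 := by
  obtain ⟨G, iG, fG, n, a, b, h1, h2⟩ := exists_nonab p
  obtain ⟨B, h3, h4⟩ := pgroup_block (O := O) h1 h2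
  exact ⟨G, iG, fG, B, n, h3, h4⟩

/-- **Brauer's `k(B)` conjecture: one omitted interval decides.** Let `p` be a prime. All blocks in (1) and
(2) are `p`-blocks of finite groups which are stable under all field automorphisms of `ℂ`.

(0) There is such a block `B₀` of defect `d₀` with `k(B₀) / p ^ d₀ < 1`.

(1) Let `B₀` be such a block of defect `d₀` with `s = k(B₀) / p ^ d₀ < 1`. Brauer's conjecture
`k(B) ≤ p ^ d` holds for all `p`-blocks `B` of all finite groups, `d` the defect of `B`, if and only if there is an `x > 0` such that no `B` satisfies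
`x < k(B) / p ^ d ≤ x / s`.

(2) Let `B₀`, `B₁` be two such blocks with quotients `s, t < 1` such that `log s / log t` is irrational.
Brauer's conjecture for `p` holds if and only if the quotients `k(B) / p ^ d` are not dense in the positive
real numbers, that is, if and only if there are `0 < u < v` such that no `B` satisfies
`u < k(B) / p ^ d < v`. -/
theorem result (p : ℕ) [Fact p.Prime] (O : ValuationSubring ℂ) (hpO : (p : ℂ) ∈ O.nonunits) :
    -- (0)
    (∃ (G₀ : Type) (_ : Group G₀) (_ : Finite G₀) (B₀ : Set (G₀ → ℂ)) (d₀ : ℕ),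
      Stable p O G₀ B₀ d₀ ∧ quo p B₀ d₀ < 1) ∧
    -- (1)
    (∀ (G₀ : Type) [Group G₀] [Finite G₀] (B₀ : Set (G₀ → ℂ)) (d₀ : ℕ), Stable p O G₀ B₀ d₀ →
      quo p B₀ d₀ < 1 →
      (Brauer p O ↔ ∃ x : ℝ, 0 < x ∧ ∀ (G : Type) [Group G] [Finite G] (B : Set (G → ℂ)) (d : ℕ),
        Stable p O G B d → ¬ (x < quo p B d ∧ quo p B d ≤ x * (1 / quo p B₀ d₀)))) ∧
    -- (2)
    ∀ (G₀ G₁ : Type) [Group G₀] [Finite G₀] [Group G₁] [Finite G₁] (B₀ : Set (G₀ → ℂ))
      (B₁ : Set (G₁ → ℂ)) (d₀ d₁ : ℕ), Stable p O G₀ B₀ d₀ → Stable p O G₁ B₁ d₁ →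
      quo p B₀ d₀ < 1 → quo p B₁ d₁ < 1 →
      Irrational (Real.log (quo p B₀ d₀) / Real.log (quo p B₁ d₁)) →
      (Brauer p O ↔ ∃ u v : ℝ, 0 < u ∧ u < v ∧
        ∀ (G : Type) [Group G] [Finite G] (B : Set (G → ℂ)) (d : ℕ),
          Stable p O G B d → ¬ (u < quo p B d ∧ quo p B d < v)) := by
  refine ⟨exists_ref p O, fun G₀ _ _ B₀ d₀ h₀ hlt => ⟨fun h => ⟨1, one_pos, fun G _ _ B d hB hc => ?_⟩, ?_⟩,
    fun G₀ G₁ _ _ _ _ B₀ B₁ d₀ d₁ h₀ h₁ hlt₀ hlt₁ hirr =>
      ⟨fun h => ⟨1, 2, one_pos, one_lt_two, fun G _ _ B d hB hc => ?_⟩, ?_⟩⟩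
  · exact absurd hc.1 (not_lt.2 (no_large h hB))
  · rintro ⟨x, hx, h⟩
    by_contra hno
    obtain ⟨X, _, _, B, d, hB, hr⟩ := violation hpO hno
    obtain ⟨n, a, h1, h2⟩ := steps hr (quo_pos h₀) hlt hx
    obtain ⟨W, iW, fW, F, g, hF, hq⟩ := comb hB h₀ h₀ n a 0
    rw [pow_zero, mul_one] at hq
    exact h W F g hF ⟨by rw [hq]; exact h1, by rw [hq]; exact h2⟩
  · exact absurd hc.1 (not_lt.2 (no_large h hB))
  · rintro ⟨u, v, hu, huv, h⟩
    by_contra hno
    obtain ⟨X, _, _, B, d, hB, hr⟩ := violation hpO hno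
    obtain ⟨n, a, b, h1, h2⟩ := dense_prod hr (quo_pos h₀) hlt₀ (quo_pos h₁) hlt₁ hirr hu huv
    obtain ⟨W, iW, fW, F, g, hF, hq⟩ := comb hB h₀ h₁ n a b
    exact h W F g hF ⟨by rw [hq]; exact h1, by rw [hq]; exact h2⟩

end Pool.Agent.Results.MP_a15589_al.OmittedInterval
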