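import Pool.Agent.U920.GR.Kb

/-!
# Brauer's `k(B)` conjecture: one residue class of `k(B)` suffices

`O` is a valuation subring of `ℂ` whose maximal ideal contains the prime `p`; it defines the `p`-blocks of
finite groups and their defect groups: `IsBlock O B` says that `B` is the set of the irreducible
characters of a block, `IsDefectGroup p O B D` that `D` is a defect group of it
(`Pool.Agent.H254R3.IN`).

Proof. If `k(B) > |D|` for one block, then `k(B) ≥ T |D|` for blocks with arbitrarily large `T` (direct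
powers). The numbers `k(B)` are multiplicative for direct products, and for wreath products with
`C_q`, `q ≠ p`, one has `k(B ≀ C_q) = F(k(B))`, `F(x) = (x^q + (q² - 1) x) / q`, with defect group `D ^ q`. So
there are blocks with `k(B) ≡ n` modulo `m` for every `n`, with defect groups of bounded order for given
`m`; and treating the primes dividing `m` in increasing order, one gets from a block with `k(B) ≥ T |D|`,
`T` large, one with the same property and `k(B)` prime to `m`, since `F` removes one factor `q`.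
-/

set_option autoImplicit false

noncomputable section

namespace Pool.Agent.Results.MP_a15589_al.OneResidueClass

open Pool.Agent.H254R3.IN (IsBlock IsDefectGroup)

/-- The class `C` of groups contains the group of order `p` and is closed under isomorphisms and, for
finite groups, under direct products. -/
def ProdClosed (p : ℕ) (C : (D : Type) → Group D → Prop) : Prop :=
  C (Multiplicative (ZMod p)) inferInstance ∧
    (∀ (D E : Type) [i : Group D] [j : Group E], Nonempty (D ≃* E) → C D i → C E j) ∧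
    ∀ (D E : Type) [i : Group D] [j : Group E] [Finite D] [Finite E],
      C D i → C E j → C (D × E) inferInstance

/-- The action of `S` on `G ^ S` by permutation of the factors. -/
def shift (G S : Type) [Group G] [Group S] : S →* MulAut (S → G) :=
  Pool.Agent.K3h3.MK.rAct G S

theorem shift_apply (G S : Type) [Group G] [Group S] (s : S) (g : S → G) (i : S) :
    shift G S s g i = g (s⁻¹ * i) := rfl

/-- The regular wreath product of `G` with a cyclic group of order `q`. -/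
abbrev Wreath (q : ℕ) (G : Type) [Group G] : Type :=
  (Multiplicative (ZMod q) → G) ⋊[shift G (Multiplicative (ZMod q))] Multiplicative (ZMod q)

/-- The class `𝒢` of groups contains the group of order `p` and is closed under isomorphisms and, for
finite groups, under direct products and regular wreath products with cyclic groups of prime order
`q ≠ p`. -/
def WrClosed (p : ℕ) (𝒢 : (G : Type) → Group G → Prop) : Prop :=
  ProdClosed p 𝒢 ∧ ∀ q : ℕ, q.Prime → q ≠ p → ∀ (G : Type) [i : Group G] [Finite G],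
    𝒢 G i → 𝒢 (Wreath q G) inferInstance

section bridge

open Pool.Agent.Q259.BW Pool.Agent.U920.GB Pool.Agent.U920.GR Pool.Agent.N19.RB
open Pool.Agent.K3h3.MK (Wr)

variable {p : ℕ} [hp : Fact p.Prime] {O : ValuationSubring ℂ}

theorem pow_closed {C : (D : Type) → Group D → Prop} (hC : ProdClosed p C) {D : Type} [Group D]
    [Finite D] (h : C D inferInstance) (n : ℕ) : C (Fin (n + 1) → D) inferInstance := by
  induction n with
  | zero =>
    have e0 : Unique (Fin (0 + 1)) := inferInstanceAs (Unique (Fin 1))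
    exact hC.2.1 _ _ ⟨(MulEquiv.piUnique (fun _ : Fin (0 + 1) => D)).symm⟩ h
  | succ n ih =>
    exact hC.2.1 _ _ ⟨(Pool.Agent.K3h3.KB.consE D (n + 1)).symm⟩ (hC.2.2 _ _ h ih)

theorem pow_closed' {C : (D : Type) → Group D → Prop} (hC : ProdClosed p C) {D : Type} [Group D]
    [Finite D] (h : C D inferInstance) {n : ℕ} (hn : n ≠ 0) : C (Fin n → D) inferInstance := by
  obtain ⟨k, rfl⟩ := Nat.exists_eq_succ_of_ne_zero hn
  exact pow_closed hC h k

/-- the blocks considered, with a nontrivial defect group -/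
structure Ok (p : ℕ) (O : ValuationSubring ℂ) (𝒢 C : (D : Type) → Group D → Prop) (X : Dat) :
    Prop where
  bl : IsBl p O X
  ne : X.D ≠ ⊥
  cg : 𝒢 X.G inferInstance
  cd : C X.D inferInstance

variable {𝒢 C : (D : Type) → Group D → Prop}

theorem ne_of_equiv {D E : Type} [Group D] [Group E] (e : D ≃* E) :
    Nat.card D = Nat.card E := Nat.card_congr e.toEquiv

theorem dd_ne {X : Dat} (h : X.D ≠ ⊥) : dd X ≠ 1 :=
  fun h1 => h (Subgroup.eq_bot_of_card_eq X.D h1)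

theorem ne_of_dd {X : Dat} (h : dd X ≠ 1) : X.D ≠ ⊥ := by
  intro h1
  apply h
  unfold dd
  rw [h1, Subgroup.card_bot]

theorem dd_pos {X : Dat} (h : IsBl p O X) : 0 < dd X := by
  have := h.fin
  exact Nat.card_pos

theorem ok_seed (hpO : (p : ℂ) ∈ O.nonunits) (h𝒢 : WrClosed p 𝒢) (hC : ProdClosed p C) :
    ∃ Z : Dat, Ok p O 𝒢 C Z ∧ kk1 Z = p ∧ dd Z = p := by
  obtain ⟨Z, h1, ⟨f⟩, ⟨e⟩, h5⟩ := bl_seed (p := p) hpO
  have h6 : dd Z = p := (ne_of_equiv e).trans (Nat.card_zmod p)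
  exact ⟨Z, ⟨h1, ne_of_dd (by rw [h6]; exact hp.out.one_lt.ne'),
    h𝒢.1.2.1 _ _ ⟨f.symm⟩ h𝒢.1.1, hC.2.1 _ _ ⟨e.symm⟩ hC.1⟩, h5, h6⟩

theorem ok_prod (h𝒢 : WrClosed p 𝒢) (hC : ProdClosed p C) {X Y : Dat} (hX : IsBl p O X)
    (hXG : 𝒢 X.G inferInstance) (hXD : C X.D inferInstance)
    (hY : Ok p O 𝒢 C Y) : ∃ Z : Dat, Ok p O 𝒢 C Z ∧ kk1 Z = kk1 X * kk1 Y ∧
      dd Z = dd X * dd Y := by
  have := hX.fin
  have := hY.bl.fin
  obtain ⟨Z, h1, ⟨f⟩, ⟨e⟩, h5⟩ := bl_prod hX hY.bl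
  have h6 : dd Z = dd X * dd Y := (ne_of_equiv e).trans (Nat.card_prod _ _)
  refine ⟨Z, ⟨h1, ne_of_dd ?_, h𝒢.1.2.1 _ _ ⟨f.symm⟩ (h𝒢.1.2.2 _ _ hXG hY.cg),
    hC.2.1 _ _ ⟨e.symm⟩ (hC.2.2 _ _ hXD hY.cd)⟩, h5, h6⟩
  rw [h6]
  exact fun h => dd_ne hY.ne (Nat.eq_one_of_mul_eq_one_left h)

theorem ok_wr (hpO : (p : ℂ) ∈ O.nonunits) (h𝒢 : WrClosed p 𝒢) (hC : ProdClosed p C) {q : ℕ}
    (hq : q.Prime) (hqp : q ≠ p) {X : Dat} (hX : Ok p O 𝒢 C X) :
    ∃ Z : Dat, Ok p O 𝒢 C Z ∧ Nums q q (kk1 X) (kk1 Z) ∧ dd Z = dd X ^ q := by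
  have := hX.bl.fin
  obtain ⟨Y, h1, h2, ⟨f⟩, ⟨e⟩, n1⟩ := bl_wr hq hqp hpO hX.bl hX.ne
  refine ⟨Y, ⟨h1, h2, h𝒢.1.2.1 (Wreath q X.G) Y.G ⟨e.symm⟩ (h𝒢.2 q hq hqp X.G hX.cg),
    hC.2.1 _ _ ⟨f.symm⟩ (pow_closed' hC hX.cd hq.ne_zero)⟩, n1, ?_⟩
  have h3 := ne_of_equiv f
  rw [Nat.card_fun, Nat.card_fin] at h3
  exact h3

/-- the numbers `k(B)` in all residue classes -/
theorem cl_k (hpO : (p : ℂ) ∈ O.nonunits) (h𝒢 : WrClosed p 𝒢) (hC : ProdClosed p C) :
    Cl p fun a z => a = z ∧ ∃ X : Dat, Ok p O 𝒢 C X ∧ kk1 X = a := by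
  refine ⟨?_, ?_, ?_⟩
  · obtain ⟨Z, h1, h2, -⟩ := ok_seed hpO h𝒢 hC
    exact ⟨rfl, Z, h1, h2⟩
  · rintro a z a' z' ⟨rfl, X, x1, rfl⟩ ⟨rfl, Y, y1, rfl⟩
    obtain ⟨Z, h1, h2, -⟩ := ok_prod h𝒢 hC x1.bl x1.cg x1.cd y1
    exact ⟨rfl, Z, h1, h2⟩
  · rintro q hq hqp a z ⟨rfl, X, x1, rfl⟩
    obtain ⟨Z, h1, h2, -⟩ := ok_wr hpO h𝒢 hC hq hqp x1
    exact ⟨_, _, ⟨rfl, Z, h1, rfl⟩, h2, h2⟩

/-- the step -/
theorem ineq {q m c k N D E A : ℕ} (hq : q.Prime) (hqm : q ≤ m) (hN : 0 < N)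
    (hE : E ≤ c) (hk : c ^ 2 * m * D ≤ k) (hA : Nums q q (N * k) A) :
    c ^ 2 * m * (D * E) ^ q ≤ A := by
  unfold Nums at hA
  have hq2 := hq.two_le
  have h1 : (N * k) ^ q ≤ q * A := by
    have h2 : N * k ≤ q * (N * k * q) := by
      have : 1 * (N * k) ≤ (q * q) * (N * k) := Nat.mul_le_mul_right _ (Nat.mul_pos hq.pos hq.pos)
      calc N * k = 1 * (N * k) := (one_mul _).symm
        _ ≤ (q * q) * (N * k) := this
        _ = q * (N * k * q) := by ring
    omega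
  have h2 : (c ^ 2 * m * D) ^ q ≤ (N * k) ^ q :=
    Nat.pow_le_pow_left (hk.trans (Nat.le_mul_of_pos_left _ hN)) q
  have hm0 : 0 < m := lt_of_lt_of_le hq.pos hqm
  rcases Nat.eq_zero_or_pos c with hc | hc
  · subst hc
    simp
  have h3 : q * (c ^ 2 * m * (D * E) ^ q) ≤ (c ^ 2 * m * D) ^ q := by
    have e1 : (c ^ 2 * m * D) ^ q = (c ^ q * m ^ q) * (D * c) ^ q := by
      rw [← mul_pow, ← mul_pow]
      congr 1
      ring
    rw [e1]
    have e2 : q * (c ^ 2 * m) ≤ c ^ q * m ^ q := by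
      have e3 : c ^ 2 ≤ c ^ q := Nat.pow_le_pow_right hc hq2
      have e4 : q * m ≤ m ^ q := by
        calc q * m ≤ m * m := Nat.mul_le_mul_right _ hqm
          _ = m ^ 2 := (pow_two m).symm
          _ ≤ m ^ q := Nat.pow_le_pow_right hm0 hq2
      calc q * (c ^ 2 * m) = c ^ 2 * (q * m) := by ring
        _ ≤ c ^ q * m ^ q := Nat.mul_le_mul e3 e4
    calc q * (c ^ 2 * m * (D * E) ^ q) = q * (c ^ 2 * m) * (D * E) ^ q := by ring
      _ ≤ c ^ q * m ^ q * (D * c) ^ q :=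
        Nat.mul_le_mul e2 (Nat.pow_le_pow_left (Nat.mul_le_mul_left _ hE) q)
  exact Nat.le_of_mul_le_mul_left (h3.trans (h2.trans h1)) hq.pos

theorem big {d T : ℕ} : ∃ n : ℕ, T * d ^ n ≤ (d + 1) ^ n := by
  rcases Nat.eq_zero_or_pos d with h | h
  · refine ⟨1, ?_⟩
    rw [h, pow_one, mul_zero]
    exact Nat.zero_le _
  have key : ∀ n : ℕ, d ^ n * (d + n) ≤ d * (d + 1) ^ n := by
    intro n
    induction n with
    | zero => simp
    | succ n ih =>
      calc d ^ (n + 1) * (d + (n + 1)) = d ^ n * (d * (d + n + 1)) := by ring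
        _ ≤ d ^ n * ((d + 1) * (d + n)) := Nat.mul_le_mul_left _ (by nlinarith)
        _ = (d + 1) * (d ^ n * (d + n)) := by ring
        _ ≤ (d + 1) * (d * (d + 1) ^ n) := Nat.mul_le_mul_left _ ih
        _ = d * (d + 1) ^ (n + 1) := by ring
  refine ⟨d * T, ?_⟩
  have h1 := key (d * T)
  have h2 : d * (T * d ^ (d * T)) ≤ d * (d + 1) ^ (d * T) := by
    refine le_trans ?_ h1
    calc d * (T * d ^ (d * T)) = d ^ (d * T) * (d * T) := by ring
      _ ≤ d ^ (d * T) * (d + d * T) := Nat.mul_le_mul_left _ (by omega)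
  exact Nat.le_of_mul_le_mul_left h2 h

theorem kk_pos {X : Dat} (h : IsBl p O X) : 0 < kk1 X := by
  have := h.fin
  have := Fintype.ofFinite X.G
  have hf : X.B.Finite := finite_of_irr h.block.irr
  have := hf.to_subtype
  obtain ⟨χ, hχ⟩ := h.block.nonempty
  have : Nonempty X.B := ⟨⟨χ, hχ⟩⟩
  exact Nat.card_pos

theorem powers (hpO : (p : ℂ) ∈ O.nonunits) (h𝒢 : WrClosed p 𝒢) (hC : ProdClosed p C) {X : Dat}
    (hX : IsBl p O X) (hXG : 𝒢 X.G inferInstance) (hXD : C X.D inferInstance) (n : ℕ) :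
    ∃ Y : Dat, Ok p O 𝒢 C Y ∧ kk1 Y = kk1 X ^ n * p ∧ dd Y = dd X ^ n * p := by
  induction n with
  | zero =>
    obtain ⟨Z, h1, h2, h3⟩ := ok_seed hpO h𝒢 hC
    exact ⟨Z, h1, by rw [h2, pow_zero, one_mul], by rw [h3, pow_zero, one_mul]⟩
  | succ n ih =>
    obtain ⟨Y, h1, h2, h3⟩ := ih
    obtain ⟨Z, z1, z2, z3⟩ := ok_prod h𝒢 hC hX hXG hXD h1
    exact ⟨Z, z1, by rw [z2, h2]; ring, by rw [z3, h3]; ring⟩

theorem main (hpO : (p : ℂ) ∈ O.nonunits) (h𝒢 : WrClosed p 𝒢) (hC : ProdClosed p C) {m : ℕ}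
    (hm0 : m ≠ 0) (hm : ¬ p ∣ m) (r T : ℕ)
    (H : ∀ X : Dat, Ok p O 𝒢 C X → kk1 X ≡ r [MOD m] → kk1 X ≤ T * dd X) {X : Dat}
    (hX : IsBl p O X) (hXG : 𝒢 X.G inferInstance) (hXD : C X.D inferInstance) :
    kk1 X ≤ dd X := by
  by_contra hlt
  push Not at hlt
  have hz : ∀ n : ℕ, ∃ Z : Dat, Ok p O 𝒢 C Z ∧ kk1 Z ≡ n [MOD m] := by
    intro n
    obtain ⟨N, ⟨-, Z, h1, h2⟩, h3⟩ := (cl_k hpO h𝒢 hC).nat hp.out hm hm0 (n + m) (by omega)
    refine ⟨Z, h1, ?_⟩
    rw [h2]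
    refine h3.trans ?_
    unfold Nat.ModEq
    rw [Nat.add_mod_right]
  choose Z z1 z2 using hz
  have hmpos : 0 < m := Nat.pos_of_ne_zero hm0
  set c := ∑ j ∈ Finset.range m, dd (Z j) with hc
  have hZc : ∀ n, dd (Z (n % m)) ≤ c := fun n =>
    Finset.single_le_sum (f := fun j => dd (Z j)) (fun _ _ => Nat.zero_le _)
      (Finset.mem_range.2 (Nat.mod_lt n hmpos))
  have hZn : ∀ n, kk1 (Z (n % m)) ≡ n [MOD m] := fun n => (z2 _).trans (Nat.mod_modEq n m)
  have hc2 : 2 ≤ c := by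
    have h1 := hZc 0
    have h2 := dd_ne (z1 (0 % m)).ne
    have h3 := dd_pos (z1 (0 % m)).bl
    omega
  let Q : ℕ → Prop := fun a => ∃ Y : Dat, Ok p O 𝒢 C Y ∧ kk1 Y = a ∧
    c ^ 2 * (m * (T + 1)) * dd Y ≤ a
  have hQ0 : ∀ a, Q a → a ≠ 0 := by
    rintro a ⟨Y, h1, rfl, -⟩
    exact (kk_pos h1.bl).ne'
  have hstp : Stp m Q := by
    intro q hq hqm n
    have hqp : q ≠ p := fun h => hm (h ▸ hqm)
    refine ⟨kk1 (Z (n % m)), hZn n, ?_⟩
    rintro a ⟨Y, h1, rfl, h3⟩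
    obtain ⟨W, w1, w2, w3⟩ := ok_prod h𝒢 hC h1.bl h1.cg h1.cd (z1 (n % m))
    obtain ⟨V, v1, v2, v3⟩ := ok_wr hpO h𝒢 hC hq hqp w1
    have w2' : kk1 W = kk1 (Z (n % m)) * kk1 Y := by rw [w2, mul_comm]
    rw [w2'] at v2
    refine ⟨kk1 V, ⟨V, v1, rfl, ?_⟩, v2⟩
    rw [v3, w3]
    exact ineq hq ((Nat.le_of_dvd hmpos hqm).trans (Nat.le_mul_of_pos_right _ (Nat.succ_pos T))) (kk_pos (z1 (n % m)).bl) (hZc n) h3 v2
  obtain ⟨n, hn⟩ := big (d := dd X) (T := c ^ 2 * (m * (T + 1)))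
  obtain ⟨Y0, y1, y2, y3⟩ := powers hpO h𝒢 hC hX hXG hXD n
  have hQY : Q (kk1 Y0) := by
    refine ⟨Y0, y1, rfl, ?_⟩
    rw [y2, y3, ← mul_assoc]
    exact Nat.mul_le_mul_right _ (hn.trans (Nat.pow_le_pow_left hlt n))
  obtain ⟨a, ⟨Y, t1, rfl, t3⟩, hco⟩ := coprime1 hm0 hstp hQ0 hQY
  have : NeZero m := ⟨hm0⟩
  set u := ((r : ZMod m) * (kk1 Y : ZMod m)⁻¹).val with hu
  obtain ⟨W, w1, w2, w3⟩ := ok_prod h𝒢 hC t1.bl t1.cg t1.cd (z1 (u % m))
  have hW : kk1 W ≡ r [MOD m] := by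
    rw [← ZMod.natCast_eq_natCast_iff, w2, Nat.cast_mul,
      (ZMod.natCast_eq_natCast_iff _ _ _).2 (hZn u), hu, ZMod.natCast_val, ZMod.cast_id]
    have h5 := ZMod.coe_mul_inv_eq_one (kk1 Y) hco
    linear_combination (r : ZMod m) * h5
  have h1 := H W w1 hW
  rw [w2, w3] at h1
  have h2 : kk1 Y ≤ kk1 Y * kk1 (Z (u % m)) := Nat.le_mul_of_pos_right _ (kk_pos (z1 _).bl)
  have h3 : T * (dd Y * dd (Z (u % m))) ≤ (T + 1) * (dd Y * c) :=
    Nat.mul_le_mul (Nat.le_succ T) (Nat.mul_le_mul_left _ (hZc u))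
  have h4 : c ^ 2 * (m * (T + 1)) * dd Y ≤ (T + 1) * (dd Y * c) := t3.trans (h2.trans (h1.trans h3))
  have h5 : 0 < dd Y := dd_pos t1.bl
  have h6 : (T + 1) * (dd Y * c) * 2 ≤ c ^ 2 * (m * (T + 1)) * dd Y := by
    calc (T + 1) * (dd Y * c) * 2 ≤ (T + 1) * (dd Y * c) * (c * m) :=
          Nat.mul_le_mul_left _ (hc2.trans (Nat.le_mul_of_pos_right _ hmpos))
      _ = c ^ 2 * (m * (T + 1)) * dd Y := by ring
  have h7 : 0 < (T + 1) * (dd Y * c) := Nat.mul_pos (Nat.succ_pos T) (Nat.mul_pos h5 (by omega))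
  omega

end bridge

/-- **Brauer's `k(B)` conjecture: one residue class of `k(B)` suffices.** Let `p` be a prime, `𝒢` a class of
groups containing the group of order `p`, closed under isomorphisms and, for finite groups, under direct
products and regular wreath products with the groups of prime order `q ≠ p`, and `C` a class of groups
containing the group of order `p`, closed under isomorphisms and direct products (for example all
groups). Consider the `p`-blocks `B`, with defect group `D` in `C`, of finite groups in `𝒢`.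

(1) Either `k(B) ≤ |D|` for all these blocks, or for every positive integer `m` prime to `p`, every `r` and
every `T` there is one with `k(B) ≡ r` modulo `m` and `k(B) > T |D|`.

(2) So `k(B) ≤ |D|` for all these blocks if this holds, for one `m` prime to `p` and one `r`, for those
with `k(B) ≡ r` modulo `m`; it even suffices that `k(B) / |D|` is bounded for these. -/
theorem result (p : ℕ) [Fact p.Prime] (O : ValuationSubring ℂ) (hpO : (p : ℂ) ∈ O.nonunits)
    (𝒢 C : (D : Type) → Group D → Prop) (h𝒢 : WrClosed p 𝒢) (hC : ProdClosed p C) :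
    -- (1)
    ((∀ (G : Type) [Group G] [Finite G] (D : Subgroup G) (B : Set (G → ℂ)), IsBlock O B →
        IsDefectGroup p O B D → 𝒢 G inferInstance → C D inferInstance →
        Nat.card B ≤ Nat.card D) ∨
      ∀ m : ℕ, m ≠ 0 → ¬ p ∣ m → ∀ r T : ℕ, ∃ (G : Type) (_ : Group G) (_ : Finite G)
        (D : Subgroup G) (B : Set (G → ℂ)), IsBlock O B ∧ IsDefectGroup p O B D ∧
        𝒢 G inferInstance ∧ C D inferInstance ∧ Nat.card B ≡ r [MOD m] ∧
        T * Nat.card D < Nat.card B) ∧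
    -- (2)
    ∀ m : ℕ, m ≠ 0 → ¬ p ∣ m → ∀ r T : ℕ,
      (∀ (G : Type) [Group G] [Finite G] (D : Subgroup G) (B : Set (G → ℂ)), IsBlock O B →
        IsDefectGroup p O B D → 𝒢 G inferInstance → C D inferInstance →
        Nat.card B ≡ r [MOD m] → Nat.card B ≤ T * Nat.card D) →
      ∀ (G : Type) [Group G] [Finite G] (D : Subgroup G) (B : Set (G → ℂ)), IsBlock O B →
        IsDefectGroup p O B D → 𝒢 G inferInstance → C D inferInstance →
        Nat.card B ≤ Nat.card D := by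
  classical
  have h2 : ∀ m : ℕ, m ≠ 0 → ¬ p ∣ m → ∀ r T : ℕ,
      (∀ (G : Type) [Group G] [Finite G] (D : Subgroup G) (B : Set (G → ℂ)), IsBlock O B →
        IsDefectGroup p O B D → 𝒢 G inferInstance → C D inferInstance →
        Nat.card B ≡ r [MOD m] → Nat.card B ≤ T * Nat.card D) →
      ∀ (G : Type) [Group G] [Finite G] (D : Subgroup G) (B : Set (G → ℂ)), IsBlock O B →
        IsDefectGroup p O B D → 𝒢 G inferInstance → C D inferInstance →
        Nat.card B ≤ Nat.card D := by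
    intro m hm0 hm r T h G _ _ D B hB hD hG hCD
    exact main hpO h𝒢 hC hm0 hm r T
      (fun X hX hr => by
        have := hX.bl.fin
        exact h X.G X.D X.B hX.bl.block hX.bl.defect hX.cg hX.cd hr)
      (X := ⟨G, D, B, ∅⟩) ⟨inferInstance, hB, hD⟩ hG hCD
  refine ⟨?_, h2⟩
  by_cases hall : ∀ (G : Type) [Group G] [Finite G] (D : Subgroup G) (B : Set (G → ℂ)),
      IsBlock O B → IsDefectGroup p O B D → 𝒢 G inferInstance → C D inferInstance →
      Nat.card B ≤ Nat.card D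
  · exact Or.inl hall
  right
  intro m hm0 hm r T
  by_contra hno
  refine hall (h2 m hm0 hm r T fun G _ _ D B hB hD hG hCD hr => ?_)
  by_contra hlt
  push Not at hlt
  exact hno ⟨G, inferInstance, inferInstance, D, B, hB, hD, hG, hCD, hr, hlt⟩

end Pool.Agent.Results.MP_a15589_al.OneResidueClass
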