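import Mathlib
import Pool.Agent.K3h3.KB.Fin

/-!
# Brauer's `k(B)` conjecture: a weak bound for Galois-stable blocks of perfect groups suffices

Let `O` be a valuation ring of `ℂ` whose maximal ideal contains the prime `p`. Blocks are given by their
sets of irreducible characters: `IsBlock O B` (`Pool.Agent.H254R3.IN`) says that `B` is the set of all
irreducible complex characters whose central characters are congruent to a given one modulo the maximal
ideal of `O`, and `HasDefect p B d` (`Pool.Agent.K3h3.KB`) says that `d` is the defect of `B`, so that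
`p ^ d = |δ(B)|`. `gal σ B` (`Pool.Agent.Q288.MB`) is the block of the Galois conjugates `σ ∘ χ`, `χ ∈ B`,
and `GenBy Q X` (`Pool.Agent.K3h3.KB`) says that the group `X` is generated by its subgroups isomorphic
to `Q`.

The theorem of the library (`Pool.Agent.K3h3.KB.equivalence`, `exists_violation`) had not been handed in.

Outline. Let `B` be a block of `G` with `k(B) > p ^ d`. In the wreath product of `G` with the alternating
group on `r` letters there is a perfect normal subgroup which contains large parts of the base group and is
generated by copies of `Q`, and some block of it has at least `k(B) ^ r / (r |G|) ^ 2` characters and defect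
group of order at most `(r |G|) p ^ (d r)`: a violation for large `r`. The Galois conjugates of a block of a
perfect group `K` with a violation are taken together: the block `⊗_i σ_i B` of `K ^ N` is Galois-stable
after extension by a suitable perfect permutation group. A violation for a stable block gives, by direct
powers, one of the weak inequality.
-/

set_option autoImplicit false

noncomputable section

namespace Pool.Agent.Results.MP_a15589_al.PerfectStableBlocks

open Pool.Agent.H254R3.IN (IsBlock)
open Pool.Agent.K3h3.KB (HasDefect GenBy)
open Pool.Agent.Q288.MB (gal)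

/-- `B` is a block of defect `d` of the perfect group `X`, stable under all field automorphisms of `ℂ`,
and `X` is generated by its subgroups isomorphic to `Q`. -/
structure Special (p : ℕ) (O : ValuationSubring ℂ) (Q : Type) [Group Q] (X : Type) [Group X]
    (B : Set (X → ℂ)) (d : ℕ) : Prop where
  perfect : commutator X = ⊤
  gen : GenBy Q X
  block : IsBlock O B
  stable : ∀ σ : ℂ ≃+* ℂ, gal σ B = B
  defect : HasDefect p B d

/-- Let `p` be a prime and let `Q` be any nontrivial finite group (for instance of prime order, or
simple).  The following are equivalent: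
(1) Brauer's `k(B)` conjecture for `p`: `k(B) ≤ p ^ d` for all blocks `B` of all finite groups, `d` the
  defect of `B`;
(2) `k(B) ≤ p ^ d` for the blocks `B` of the perfect finite groups `X` generated by subgroups isomorphic to
  `Q` which are stable under all Galois automorphisms;
(3) for every `ε > 0` there is `C` with `k(B) ≤ C p ^ d |X| ^ ε` for these `X` and `B`. -/
theorem result (p : ℕ) [Fact p.Prime] (O : ValuationSubring ℂ) (hpO : (p : ℂ) ∈ O.nonunits)
    (Q : Type) [Group Q] [Finite Q] [Nontrivial Q] :
    List.TFAE
      [∀ (G : Type) [Group G] [Finite G] (B : Set (G → ℂ)) (d : ℕ), IsBlock O B →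
          HasDefect p B d → Nat.card B ≤ p ^ d,
       ∀ (X : Type) [Group X] [Finite X] (B : Set (X → ℂ)) (d : ℕ), Special p O Q X B d →
          Nat.card B ≤ p ^ d,
       ∀ ε : ℝ, 0 < ε → ∃ C : ℝ, ∀ (X : Type) [Group X] [Finite X] (B : Set (X → ℂ)) (d : ℕ),
          Special p O Q X B d → (Nat.card B : ℝ) ≤ C * (p : ℝ) ^ d * (Nat.card X : ℝ) ^ ε] := by
  have hE := Pool.Agent.K3h3.KB.equivalence (p := p) hpO Q
  tfae_have 1 → 2 := by
    intro h X _ _ B d hS
    exact h X B d hS.block hS.defect
  tfae_have 2 → 3 := by
    intro h ε hε
    refine ⟨1, fun X _ _ B d hS => ?_⟩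
    have h1 := h X B d hS
    have h2 : (1 : ℝ) ≤ (Nat.card X : ℝ) ^ ε := by
      apply Real.one_le_rpow _ hε.le
      exact_mod_cast Nat.card_pos
    have h3 : (Nat.card B : ℝ) ≤ (p : ℝ) ^ d := by exact_mod_cast h1
    calc (Nat.card B : ℝ) ≤ (p : ℝ) ^ d * 1 := by rw [mul_one]; exact h3
      _ ≤ (p : ℝ) ^ d * (Nat.card X : ℝ) ^ ε := by gcongr
      _ = 1 * (p : ℝ) ^ d * (Nat.card X : ℝ) ^ ε := by rw [one_mul]
  tfae_have 3 → 1 := by
    intro h
    rw [hE]
    intro ε hε
    obtain ⟨C, hC⟩ := h ε hε
    refine ⟨C, fun X _ _ B d h1 h2 h3 h4 h5 => ?_⟩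
    have := hC X B d ⟨h1, h2, h3, h4, h5⟩
    push_cast
    exact this
  tfae_finish

end Pool.Agent.Results.MP_a15589_al.PerfectStableBlocks
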