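import Pool.Agent.U259.PK.Fin

/-!
# Brauer's `k(B)` conjecture implies its projective form

`red` is a ring homomorphism from the algebraic integers to a field `F` of characteristic `p`; its kernel
is a maximal ideal that contains `p`. The central characters of the irreducible characters, reduced by
`red`, give the `p`-blocks: `χ` and `ϑ` are in the same block if and only if their reduced central
characters agree on the sums of the `p`-regular conjugacy classes (the block idempotents are supported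
there). `lam red (MonoidHom.id G) χ g` (`Pool.Agent.Q99.AS.lam`) is the reduced central character of
`χ ∈ Irr(G)` at the sum of the conjugacy class of `g ∈ G`.

Proof. Let `O` be a central `p`-subgroup of `G`, `λ ∈ Irr(O)`, `B` a block of `G` of defect `d`, and let
`k(B, λ)` be the number of the characters of `B` over `λ`. The central square `W = (G × G) / {(z, z⁻¹)}` has
the central subgroup `O`, embedded by `z ↦ (z, 1)`, and a block `B'` of `W` consists of the characters
`θ ⊗ ψ` of `G × G` with `θ, ψ ∈ B` which have `{(z, z⁻¹)}` in the kernel. So `k(B', λ) ≥ k(B, λ)²`, and `B'` has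
the defect `2d - log_p |O|`. Iterating this `n` times gives blocks of groups of order at most `|G|^(2^n)` with
at least `k(B, λ)^(2^n)` characters and defect groups of order `|O| (p^d / |O|)^(2^n)`. For `n → ∞` this
gives `k(B, λ) ≤ p^d / |O|`, if `k(B) ≤ C |G|^ε p^d` holds for all `ε > 0`.
-/

set_option autoImplicit false

noncomputable section

namespace Pool.Agent.Results.MP_a15589_al.ProjectiveForm

open Pool.Agent.Q99.AS (lam)
open Pool.Agent.Helper884.IC (IsIrrChar)

/-- `ϑ` is in the `p`-block of `χ`: the reduced central characters agree on the sums of the `p`-regular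
classes. -/
def SameBlock {F : Type} [Field F] (p : ℕ) (red : integralClosure ℤ ℂ →+* F) {G : Type} [Group G]
    (χ ϑ : G → ℂ) : Prop :=
  ∀ g : G, ¬ p ∣ orderOf g →
    lam red (MonoidHom.id G) ϑ g = lam red (MonoidHom.id G) χ g

/-- The block of `χ` has the defect `d`: the smallest `p`-part of the degrees of its irreducible
characters is `|G|_p / p^d`. -/
def HasDefect {F : Type} [Field F] (p : ℕ) (red : integralClosure ℤ ℂ →+* F) {G : Type} [Group G]
    (χ : G → ℂ) (d : ℕ) : Prop :=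
  (∃ ϑ : G → ℂ, IsIrrChar ϑ ∧ SameBlock p red χ ϑ ∧ ∃ n : ℕ, ϑ 1 = n ∧
    n.factorization p + d = (Nat.card G).factorization p) ∧
  ∀ ϑ : G → ℂ, IsIrrChar ϑ → SameBlock p red χ ϑ → ∀ n : ℕ, ϑ 1 = n →
    (Nat.card G).factorization p ≤ n.factorization p + d

/-- `k(B)` for the block `B` of `χ`. -/
def k {F : Type} [Field F] (p : ℕ) (red : integralClosure ℤ ℂ →+* F) {G : Type} [Group G]
    (χ : G → ℂ) : ℕ :=
  Nat.card {ϑ : G → ℂ // IsIrrChar ϑ ∧ SameBlock p red χ ϑ}

/-- `k(B, μ)` for the block `B` of `χ`: the number of the irreducible characters in `B` which lie over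
the character `μ` of the central subgroup `Z`. -/
def kOver {F : Type} [Field F] (p : ℕ) (red : integralClosure ℤ ℂ →+* F) {G : Type} [Group G]
    (χ : G → ℂ) {Z : Subgroup G} (μ : Z → ℂ) : ℕ :=
  Nat.card {ϑ : G → ℂ // IsIrrChar ϑ ∧ SameBlock p red χ ϑ ∧ ∀ z : Z, ϑ z = ϑ 1 * μ z}

/-- `O` is the Sylow `p`-subgroup of the abelian group `Z`. -/
def IsSylowOf {G : Type} [Group G] (p : ℕ) (O Z : Subgroup G) : Prop :=
  O ≤ Z ∧ IsPGroup p O ∧ ∀ P : Subgroup G, P ≤ Z → IsPGroup p P → P ≤ O

/-- **The projective form of Brauer's `k(B)` conjecture.** Let `p` be a prime and `X` a class of groups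
closed (for finite groups) under direct squares `G × G` and quotients by central `p`-subgroups, for
instance all groups. The following are equivalent:
(1) `k(B) ≤ p^d` for all blocks `B` of all finite groups in `X`, `d` the defect of `B`;
(2) `|Z_p| k(B, μ) ≤ p^d` for all these blocks, all `Z ≤ Z(G)` and all `μ ∈ Irr(Z)`, where `Z_p` is the Sylow
`p`-subgroup of `Z` (so `k(B, μ) ≤ |D : Z_p|` for the defect groups `D` of `B`);
(3) for each `ε > 0` there is `C` with `k(B) ≤ C |G|^ε p^d` for all these blocks. -/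
theorem result (p : ℕ) [Fact p.Prime] (F : Type) [Field F] [CharP F p]
    (red : integralClosure ℤ ℂ →+* F) (X : ∀ (G : Type) [Group G], Prop)
    (hX : ∀ (G : Type) [Group G] [Finite G], X G → ∀ (K : Subgroup G) [K.Normal],
      K ≤ Subgroup.center G → IsPGroup p K → X (G ⧸ K))
    (hX' : ∀ (G : Type) [Group G] [Finite G], X G → X (G × G)) :
    List.TFAE
      [∀ (G : Type) [Group G] [Finite G], X G → ∀ (χ : G → ℂ) (d : ℕ), IsIrrChar χ →
          HasDefect p red χ d → k p red χ ≤ p ^ d,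
       ∀ (G : Type) [Group G] [Finite G], X G → ∀ (χ : G → ℂ) (d : ℕ), IsIrrChar χ →
          HasDefect p red χ d → ∀ (Z O : Subgroup G) (μ : Z → ℂ), Z ≤ Subgroup.center G →
            IsSylowOf p O Z → IsIrrChar μ → Nat.card O * kOver p red χ μ ≤ p ^ d,
       ∀ ε : ℝ, 0 < ε → ∃ C : ℝ, ∀ (G : Type) [Group G] [Finite G], X G →
          ∀ (χ : G → ℂ) (d : ℕ), IsIrrChar χ → HasDefect p red χ d →
            (k p red χ : ℝ) ≤ C * (Nat.card G : ℝ) ^ ε * (p : ℝ) ^ d] := by
  tfae_have 1 → 3 := by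
    intro h ε hε
    refine ⟨1, fun G _ _ hG χ d hχ hd => ?_⟩
    have h1 : (k p red χ : ℝ) ≤ (p : ℝ) ^ d := by exact_mod_cast h G hG χ d hχ hd
    have h2 : (1 : ℝ) ≤ (Nat.card G : ℝ) ^ ε :=
      Real.one_le_rpow (by exact_mod_cast Nat.card_pos (α := G)) hε.le
    have h3 : (0 : ℝ) ≤ (p : ℝ) ^ d := pow_nonneg (Nat.cast_nonneg p) d
    rw [one_mul]
    exact h1.trans (le_mul_of_one_le_left h3 h2)
  tfae_have 3 → 2 := by
    intro h G _ _ hG χ d hχ hd Z O μ hZ hO hμ
    obtain ⟨a1, am⟩ := Pool.Agent.U259.DP.lin_of hZ hμ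
    obtain ⟨a, ha⟩ := IsPGroup.iff_card.1 hO.2.1
    have h1 := Pool.Agent.U259.PK.proj (X := X) red hX hX' (A := O) hO.2.1
      (l := fun x : O => μ ⟨x.1, hO.1 x.2⟩) a1 (fun x y => am ⟨x.1, hO.1 x.2⟩ ⟨y.1, hO.1 y.2⟩) ha
      h hG O.subtype O.subtype_injective
      (by rw [Subgroup.range_subtype]; exact hO.1.trans hZ) hχ hd
    refine le_trans ?_ h1
    rw [ha]
    refine Nat.mul_le_mul le_rfl ?_
    have _i := Pool.Agent.U259.PK.fin_irr (G := G) (fun ϑ => Pool.Agent.U259.PK.Sb red p χ ϑ ∧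
      ∀ x : O, ϑ (O.subtype x) = ϑ 1 * μ ⟨x.1, hO.1 x.2⟩)
    unfold kOver Pool.Agent.U259.PK.kO
    exact Nat.card_le_card_of_injective
      (fun x : {ϑ : G → ℂ // IsIrrChar ϑ ∧ SameBlock p red χ ϑ ∧ ∀ z : Z, ϑ z = ϑ 1 * μ z} =>
        (⟨x.1, x.2.1, x.2.2.1, fun b => x.2.2.2 ⟨b.1, hO.1 b.2⟩⟩ :
          {ϑ : G → ℂ // IsIrrChar ϑ ∧ Pool.Agent.U259.PK.Sb red p χ ϑ ∧
            ∀ x : O, ϑ (O.subtype x) = ϑ 1 * μ ⟨x.1, hO.1 x.2⟩}))
      (fun x y h => by
        have h1 := congrArg Subtype.val h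
        exact Subtype.ext h1)
  tfae_have 2 → 1 := by
    intro h G _ _ hG χ d hχ hd
    have _f : Fintype (⊥ : Subgroup G) := Fintype.ofFinite _
    have h1 : IsIrrChar (fun _ : (⊥ : Subgroup G) => (1 : ℂ)) :=
      Pool.Agent.N19.RB.irr_lin rfl fun _ _ => (one_mul 1).symm
    have h2 := h G hG χ d hχ hd ⊥ ⊥ (fun _ => 1) bot_le
      ⟨le_rfl, IsPGroup.of_bot, fun P hP _ => hP⟩ h1
    have h3 : kOver p red χ (fun _ : (⊥ : Subgroup G) => (1 : ℂ)) = k p red χ := by
      unfold kOver k
      refine Nat.card_congr (Equiv.subtypeEquivRight fun ϑ => ?_)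
      constructor
      · rintro ⟨g1, g2, -⟩
        exact ⟨g1, g2⟩
      · rintro ⟨g1, g2⟩
        refine ⟨g1, g2, fun z => ?_⟩
        have h4 : (z : G) = 1 := Subgroup.mem_bot.1 z.2
        rw [h4, mul_one]
    rw [h3, Subgroup.card_bot, one_mul] at h2
    exact h2
  tfae_finish

end Pool.Agent.Results.MP_a15589_al.ProjectiveForm
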